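import Mathlib

/-!
# Positive isomorphisms between `C(2^ω)` and `C[0,1]`: statements of the parts

`Sys K Q M` collects the data of the construction.  `K`, `Q`, `M` are compact spaces; `γ n : Q → K`
are charts shrinking to the point `p`, `v n` are weights (supported in the image of the `n`-th chart),
`U : C(Q) → C(M)` and `e : C(M) → C(Q)` are positive unital with `U ∘ e = id`.
-/

set_option autoImplicit false

open Filter Topology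

namespace Pool.Agent.W668.PI

/-- The data of the construction. -/
structure Sys (K Q M : Type) [TopologicalSpace K] [CompactSpace K] [TopologicalSpace Q]
    [CompactSpace Q] [TopologicalSpace M] [CompactSpace M] where
  v : ℕ → C(K, ℝ)
  vq : C(Q, ℝ)
  ρ : ℕ → C(K, Q)
  γ : ℕ → C(Q, K)
  p : K
  U : C(Q, ℝ) →L[ℝ] C(M, ℝ)
  e : C(M, ℝ) →L[ℝ] C(Q, ℝ)
  v_nonneg : ∀ n y, 0 ≤ v n y
  v_le : ∀ n y, v n y ≤ 2 / 3
  v_p : ∀ n, v n p = 0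
  disj : ∀ m n y, m ≠ n → v m y = 0 ∨ v n y = 0
  shrink : ∀ O ∈ 𝓝 p, ∃ N, ∀ n ≥ N, ∀ y, v n y ≠ 0 → y ∈ O
  γ_shrink : ∀ O ∈ 𝓝 p, ∃ N, ∀ n ≥ N, ∀ q, γ n q ∈ O
  v_γ : ∀ n q, v n (γ n q) = vq q
  v_γ' : ∀ m n q, m ≠ n → v m (γ n q) = 0
  ρ_γ : ∀ n q, ρ n (γ n q) = q
  U_pos : ∀ f : C(Q, ℝ), (∀ x, 0 ≤ f x) → ∀ y, 0 ≤ U f y
  e_pos : ∀ f : C(M, ℝ), (∀ x, 0 ≤ f x) → ∀ y, 0 ≤ e f y
  U_one : U 1 = 1
  e_one : e 1 = 1
  U_e : ∀ a, U (e a) = a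
  U_v : ∀ f : C(Q, ℝ), U (vq * f) = (2 / 3 : ℝ) • U f

/-- Sums of disjointly supported continuous functions whose norms tend to zero. -/
def S_SUM : Prop :=
  ∀ (K : Type) [TopologicalSpace K] [CompactSpace K] (d : ℕ → C(K, ℝ)),
    (∀ m n y, m ≠ n → d m y = 0 ∨ d n y = 0) → Tendsto (fun n => ‖d n‖) atTop (𝓝 0) →
    Summable d ∧ (∀ y n, d n y ≠ 0 → (∑' k, d k) y = d n y) ∧
      ∀ y, (∀ n, d n y = 0) → (∑' k, d k) y = 0

/-- First direction: `C(K) → C(M) × C(K)`. -/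
def S_T1 : Prop :=
  ∀ (K Q M : Type) [TopologicalSpace K] [CompactSpace K] [TopologicalSpace Q]
    [CompactSpace Q] [TopologicalSpace M] [CompactSpace M], Sys K Q M →
    ∃ T : C(K, ℝ) ≃L[ℝ] (C(M, ℝ) × C(K, ℝ)), ∀ f : C(K, ℝ), (∀ x, 0 ≤ f x) →
      (∀ y, 0 ≤ (T f).1 y) ∧ ∀ y, 0 ≤ (T f).2 y

/-- Second direction: `C(M) × C(K) → C(K)`. -/
def S_T2 : Prop :=
  ∀ (K Q M : Type) [TopologicalSpace K] [CompactSpace K] [TopologicalSpace Q]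
    [CompactSpace Q] [TopologicalSpace M] [CompactSpace M], Sys K Q M →
    ∃ T : (C(M, ℝ) × C(K, ℝ)) ≃L[ℝ] C(K, ℝ), ∀ g : C(M, ℝ) × C(K, ℝ), (∀ x, 0 ≤ g.1 x) →
      (∀ x, 0 ≤ g.2 x) → ∀ y, 0 ≤ T g y

/-- Miljutin's lemma: a map of the Cantor space onto the interval with a positive averaging
operator. -/
def S_MIL : Prop :=
  ∃ (φ : C(ℕ → Bool, unitInterval)) (U : C(ℕ → Bool, ℝ) →L[ℝ] C(unitInterval, ℝ)),
    (∀ f : C(ℕ → Bool, ℝ), (∀ x, 0 ≤ f x) → ∀ y, 0 ≤ U f y) ∧ U 1 = 1 ∧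
      ∀ g : C(unitInterval, ℝ), U (g.comp φ) = g

/-- A positive extension operator for a copy of the Cantor space in the interval. -/
def S_CAN : Prop :=
  ∃ (c : C(ℕ → Bool, unitInterval)) (E : C(ℕ → Bool, ℝ) →L[ℝ] C(unitInterval, ℝ)),
    (∀ f : C(ℕ → Bool, ℝ), (∀ x, 0 ≤ f x) → ∀ y, 0 ≤ E f y) ∧ E 1 = 1 ∧
      ∀ (f : C(ℕ → Bool, ℝ)) z, E f (c z) = f z

/-- the system on the Cantor space -/
def S_DEL : Prop := S_MIL → Nonempty (Sys (ℕ → Bool) (ℕ → Bool) unitInterval)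

/-- the system on the interval -/
def S_INT : Prop := S_CAN → Nonempty (Sys unitInterval unitInterval (ℕ → Bool))

end Pool.Agent.W668.PI
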